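import Pool.Agent.N909.CX.Def

set_option autoImplicit false

/-!
# Project CX, X1: the tube has tilted probability at least 1/2 (helper562)
-/

open Finset

namespace Pool.Agent.N562.CX

open Pool.Agent.N909.CX

theorem sum_We (k : ℕ) (f : List Bool → ℝ) :
    ∑ w ∈ We (k + 1), f w = ∑ w ∈ We k, f (true :: w) + ∑ w ∈ We k, f (false :: w) := by
  have hd : Disjoint ((We k).image (fun w => true :: w)) ((We k).image (fun w => false :: w)) := by
    rw [Finset.disjoint_left]
    intro w h1 h2
    rw [mem_image] at h1 h2
    obtain ⟨a, -, ha⟩ := h1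
    obtain ⟨b, -, hb⟩ := h2
    rw [← hb] at ha
    simp at ha
  have e : We (k + 1) = (We k).image (fun w => true :: w) ∪ (We k).image (fun w => false :: w) := rfl
  rw [e, sum_union hd, sum_image, sum_image]
  · intro a _ b _ h
    simpa using h
  · intro a _ b _ h
    simpa using h

theorem len_We : ∀ (k : ℕ) (w : List Bool), w ∈ We k → w.length = k := by
  intro k
  induction k with
  | zero =>
    intro w hw
    have e : We 0 = {[]} := rfl
    rw [e, mem_singleton] at hw
    rw [hw]
    rfl
  | succ k ih =>
    intro w hw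
    have e : We (k + 1) = (We k).image (fun w => true :: w) ∪ (We k).image (fun w => false :: w) := rfl
    rw [e, mem_union, mem_image, mem_image] at hw
    rcases hw with ⟨a, ha, rfl⟩ | ⟨a, ha, rfl⟩
    · rw [List.length_cons, ih a ha]
    · rw [List.length_cons, ih a ha]

/-- the weight of a word -/
noncomputable def q (w : List Bool) : ℝ :=
  (3 / 4 : ℝ) ^ (w.count true) * (1 / 4) ^ (w.length - w.count true)

theorem q_pos (w : List Bool) : 0 < q w := by
  unfold q
  positivity

theorem q_true (w : List Bool) : q (true :: w) = 3 / 4 * q w := by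
  unfold q
  rw [List.count_cons_self, List.length_cons]
  have : w.length + 1 - (w.count true + 1) = w.length - w.count true := by omega
  rw [this, pow_succ]
  ring

theorem q_false (w : List Bool) : q (false :: w) = 1 / 4 * q w := by
  unfold q
  have h1 : (false :: w).count true = w.count true := by simp
  have h2 : w.count true ≤ w.length := List.count_le_length
  rw [h1, List.length_cons]
  have : w.length + 1 - w.count true = (w.length - w.count true) + 1 := by omega
  rw [this, pow_succ]
  ring

/-- the Laplace transform of one step -/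
noncomputable def g (s : ℝ) : ℝ := 3 / 4 * Real.exp (s / 4) + 1 / 4 * Real.exp (-(3 * s / 4))

/-- the deviation -/
noncomputable def dv (j : ℕ) (w : List Bool) : ℝ := (((w.take j).count true : ℕ) : ℝ) - 3 / 4 * j

theorem moment (s : ℝ) : ∀ k j : ℕ, j ≤ k →
    ∑ w ∈ We k, q w * Real.exp (s * dv j w) = g s ^ j := by
  intro k
  induction k with
  | zero =>
    intro j hj
    have : j = 0 := by omega
    subst this
    have e : We 0 = {[]} := rfl
    rw [e, sum_singleton]
    unfold q dv
    simp
  | succ k ih =>
    intro j hj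
    rw [sum_We]
    rcases j with _ | j
    · have h0 := ih 0 (Nat.zero_le _)
      have e1 : ∀ w : List Bool, Real.exp (s * dv 0 w) = 1 := by
        intro w
        unfold dv
        simp
      simp_rw [e1, mul_one] at h0 ⊢
      simp_rw [q_true, q_false, ← mul_sum]
      rw [pow_zero] at h0 ⊢
      rw [h0]
      norm_num
    · have h0 := ih j (by omega)
      have e1 : ∀ w : List Bool, q (true :: w) * Real.exp (s * dv (j + 1) (true :: w)) =
          (3 / 4 * Real.exp (s / 4)) * (q w * Real.exp (s * dv j w)) := by
        intro w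
        have : s * dv (j + 1) (true :: w) = s / 4 + s * dv j w := by
          unfold dv
          rw [List.take_succ_cons, List.count_cons_self]
          push_cast
          ring
        rw [this, Real.exp_add, q_true]
        ring
      have e2 : ∀ w : List Bool, q (false :: w) * Real.exp (s * dv (j + 1) (false :: w)) =
          (1 / 4 * Real.exp (-(3 * s / 4))) * (q w * Real.exp (s * dv j w)) := by
        intro w
        have : s * dv (j + 1) (false :: w) = -(3 * s / 4) + s * dv j w := by
          have h1 : (false :: w.take j).count true = (w.take j).count true := by simp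
          unfold dv
          rw [List.take_succ_cons, h1]
          push_cast
          ring
        rw [this, Real.exp_add, q_false]
        ring
      simp_rw [e1, e2, ← mul_sum]
      rw [h0, ← add_mul]
      unfold g
      rw [pow_succ]
      ring

theorem exp_le (x : ℝ) (hx : |x| ≤ 1) : Real.exp x ≤ 1 + x + x ^ 2 := by
  have := Real.abs_exp_sub_one_sub_id_le hx
  have h2 := (abs_le.1 this).2
  linarith

theorem g_le (s : ℝ) (hs : |s| ≤ 1) : g s ≤ Real.exp (3 * s ^ 2 / 16) := by
  have h0 := abs_le.1 hs
  have h1 := exp_le (s / 4) (by rw [abs_le]; constructor <;> linarith)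
  have h2 := exp_le (-(3 * s / 4)) (by rw [abs_le]; constructor <;> linarith)
  have h3 := Real.add_one_le_exp (3 * s ^ 2 / 16)
  unfold g
  nlinarith

theorem t : Pool.Agent.N909.CX.Stm1 := by
  obtain ⟨s, hs⟩ : ∃ s : ℝ, s = 1 / 500 := ⟨_, rfl⟩
  obtain ⟨r, hr⟩ : ∃ r : ℝ, r = Real.exp (-(1 / 800000)) := ⟨_, rfl⟩
  have hr0 : 0 < r := by rw [hr]; exact Real.exp_pos _
  have hr1 : r < 1 := by
    rw [hr]
    rw [← Real.exp_zero]
    exact Real.exp_lt_exp.2 (by norm_num)
  obtain ⟨M, hM⟩ := exists_nat_ge (500 * (4 / (1 - r)))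
  refine ⟨M, fun k => ?_⟩
  classical
  have h1r : 0 < 1 - r := by linarith
  have hexpM : 4 / (1 - r) ≤ Real.exp (s * M) := by
    have h1 := Real.add_one_le_exp (s * M)
    have h2 : s * (500 * (4 / (1 - r))) ≤ s * M := by
      rw [hs]
      gcongr
    have h3 : s * (500 * (4 / (1 - r))) = 4 / (1 - r) := by
      rw [hs]
      ring
    linarith
  have hstep : ∀ σ : ℝ, σ ^ 2 = s ^ 2 → |σ| ≤ 1 → g σ * Real.exp (-(s / 1000)) ≤ r := by
    intro σ h2 h1
    calc g σ * Real.exp (-(s / 1000)) ≤ Real.exp (3 * σ ^ 2 / 16) * Real.exp (-(s / 1000)) := by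
          gcongr
          exact g_le σ h1
      _ = r := by
          rw [← Real.exp_add, h2, hs, hr]
          congr 1
          norm_num
  have hg0 : ∀ σ : ℝ, 0 ≤ g σ := by
    intro σ
    unfold g
    positivity
  -- the bound of one term
  obtain ⟨h, hh⟩ : ∃ h : ℕ → List Bool → ℝ, h = fun j w =>
    (Real.exp (s * dv j w) + Real.exp (-s * dv j w)) * Real.exp (-(s * (j / 1000 + M))) := ⟨_, rfl⟩
  have hh0 : ∀ j w, 0 ≤ h j w := by
    intro j w
    rw [hh]
    positivity
  have hterm : ∀ j ≤ k, ∑ w ∈ We k, q w * h j w ≤ 2 * r ^ j * Real.exp (-(s * M)) := by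
    intro j hj
    have e1 : ∑ w ∈ We k, q w * h j w = (g s ^ j + g (-s) ^ j) * Real.exp (-(s * (j / 1000 + M))) := by
      rw [← moment s k j hj, ← moment (-s) k j hj, ← sum_add_distrib, sum_mul]
      refine sum_congr rfl fun w _ => ?_
      rw [hh]
      ring
    have e2 : Real.exp (-(s * (j / 1000 + M))) = Real.exp (-(s / 1000)) ^ j * Real.exp (-(s * M)) := by
      rw [← Real.exp_nat_mul, ← Real.exp_add]
      congr 1
      ring
    rw [e1, e2, ← mul_assoc, add_mul, ← mul_pow, ← mul_pow]
    refine mul_le_mul_of_nonneg_right ?_ (Real.exp_pos _).le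
    have a1 : (g s * Real.exp (-(s / 1000))) ^ j ≤ r ^ j :=
      pow_le_pow_left₀ (mul_nonneg (hg0 _) (Real.exp_pos _).le)
        (hstep s rfl (by rw [hs]; norm_num [abs_le])) j
    have a2 : (g (-s) * Real.exp (-(s / 1000))) ^ j ≤ r ^ j :=
      pow_le_pow_left₀ (mul_nonneg (hg0 _) (Real.exp_pos _).le)
        (hstep (-s) (by ring) (by rw [hs]; norm_num [abs_le])) j
    linarith
  have hbad : ∀ w ∈ We k, ¬ Tube M w → 1 ≤ ∑ j ∈ range (k + 1), h j w := by
    intro w hw hT
    unfold Tube at hT
    push Not at hT
    obtain ⟨j, hj, hT⟩ := hT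
    rw [len_We k w hw] at hj
    have h1 : 1 ≤ h j w := by
      rw [hh]
      simp only
      have h2 : (j : ℝ) / 1000 + M < |dv j w| := hT
      have hs0 : 0 < s := by rw [hs]; norm_num
      rw [add_mul, ← Real.exp_add, ← Real.exp_add]
      rcases lt_abs.1 h2 with h3 | h3
      · have h4 : 0 ≤ s * dv j w + -(s * (j / 1000 + M)) := by nlinarith
        have h5 := Real.one_le_exp h4
        have h6 := Real.exp_pos (-s * dv j w + -(s * (j / 1000 + M)))
        linarith
      · have h4 : 0 ≤ -s * dv j w + -(s * (j / 1000 + M)) := by nlinarith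
        have h5 := Real.one_le_exp h4
        have h6 := Real.exp_pos (s * dv j w + -(s * (j / 1000 + M)))
        linarith
    exact h1.trans (single_le_sum (f := fun j => h j w) (fun i _ => hh0 i w)
      (mem_range.2 (by omega)))
  have htot : ∑ w ∈ We k, q w = 1 := by
    have := moment 0 k 0 (Nat.zero_le _)
    simpa using this
  have hsplit := sum_filter_add_sum_filter_not (We k) (fun w => Tube M w) q
  rw [htot] at hsplit
  have hnot : ∑ w ∈ (We k).filter (fun w => ¬ Tube M w), q w ≤ 1 / 2 := by
    calc ∑ w ∈ (We k).filter (fun w => ¬ Tube M w), q w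
        ≤ ∑ w ∈ (We k).filter (fun w => ¬ Tube M w), q w * ∑ j ∈ range (k + 1), h j w := by
          refine sum_le_sum fun w hw => ?_
          rw [mem_filter] at hw
          exact le_mul_of_one_le_right (q_pos w).le (hbad w hw.1 hw.2)
      _ ≤ ∑ w ∈ We k, q w * ∑ j ∈ range (k + 1), h j w := by
          refine sum_le_sum_of_subset_of_nonneg (filter_subset _ _) fun w _ _ => ?_
          exact mul_nonneg (q_pos w).le (sum_nonneg fun j _ => hh0 j w)
      _ = ∑ j ∈ range (k + 1), ∑ w ∈ We k, q w * h j w := by
          rw [sum_comm]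
          refine sum_congr rfl fun w _ => ?_
          rw [mul_sum]
      _ ≤ ∑ j ∈ range (k + 1), 2 * r ^ j * Real.exp (-(s * M)) := by
          refine sum_le_sum fun j hj => ?_
          rw [mem_range] at hj
          exact hterm j (by omega)
      _ = 2 * Real.exp (-(s * M)) * ∑ j ∈ range (k + 1), r ^ j := by
          rw [mul_sum]
          refine sum_congr rfl fun j _ => ?_
          ring
      _ ≤ 2 * Real.exp (-(s * M)) * (1 / (1 - r)) := by
          gcongr
          rw [le_div_iff₀ h1r]
          have h2 := geom_sum_mul_neg r (k + 1)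
          have h3 : 0 < r ^ (k + 1) := by positivity
          linarith
      _ ≤ 1 / 2 := by
          rw [Real.exp_neg]
          have hE := Real.exp_pos (s * M)
          have h5 : 2 * (Real.exp (s * M))⁻¹ * (1 / (1 - r)) = (4 / (1 - r)) / Real.exp (s * M) / 2 := by
            field_simp
            ring
          rw [h5]
          have h6 : (4 / (1 - r)) / Real.exp (s * M) ≤ 1 := by
            rw [div_le_one hE]
            exact hexpM
          linarith
  have hfin : ∑ w ∈ (We k).filter (fun w => Tube M w),
      (3 / 4 : ℝ) ^ (w.count true) * (1 / 4) ^ (k - w.count true) =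
      ∑ w ∈ (We k).filter (fun w => Tube M w), q w := by
    refine sum_congr rfl fun w hw => ?_
    unfold q
    rw [len_We k w (mem_filter.1 hw).1]
  refine le_trans ?_ (le_of_eq hfin.symm) |>.trans (le_of_eq ?_)
  · linarith
  · congr 1

end Pool.Agent.N562.CX
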